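import Pool.Agent.H33.WT.GUN

/-!
# Good cuts after a move of labels
-/

set_option autoImplicit false

noncomputable section

namespace Pool.Agent.H33.WT

open Pool.Agent.H38.WT

lemma maps_C {m : ℕ} {C : Set (Fin m)} {σ : Equiv.Perm (Fin m)} (hσ : ∀ x, x ∉ C → σ x = x) :
    ∀ x, x ∈ C → σ x ∈ C := by
  intro x hx
  by_contra hn
  have h1 : σ (σ x) = σ x := hσ _ hn
  exact hn (by rw [σ.injective h1]; exact hx)

lemma symm_C {m : ℕ} {C : Set (Fin m)} {σ : Equiv.Perm (Fin m)} (hσ : ∀ x, x ∉ C → σ x = x) :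
    ∀ x, x ∈ C → σ.symm x ∈ C := by
  intro x hx
  by_contra hn
  have h1 : σ (σ.symm x) = σ.symm x := hσ _ hn
  rw [Equiv.apply_symm_apply] at h1
  exact hn (h1 ▸ hx)

lemma image_of_sup {m : ℕ} {C A : Set (Fin m)} {σ : Equiv.Perm (Fin m)}
    (hσ : ∀ x, x ∉ C → σ x = x) (hA : C ⊆ A) : σ '' A = A := by
  apply Set.Subset.antisymm
  · rintro _ ⟨x, hx, rfl⟩
    by_cases hC : x ∈ C
    · exact hA (maps_C hσ x hC)
    · rw [hσ x hC]; exact hx
  · intro y hy
    by_cases hC : y ∈ C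
    · exact ⟨σ.symm y, hA (symm_C hσ y hC), by simp⟩
    · exact ⟨y, hy, hσ y hC⟩

lemma image_of_disj {m : ℕ} {C A : Set (Fin m)} {σ : Equiv.Perm (Fin m)}
    (hσ : ∀ x, x ∉ C → σ x = x) (hA : Disjoint A C) : σ '' A = A := by
  have hn : ∀ x ∈ A, x ∉ C := fun x hx hC => Set.disjoint_left.1 hA hx hC
  apply Set.Subset.antisymm
  · rintro _ ⟨x, hx, rfl⟩
    rw [hσ x (hn x hx)]; exact hx
  · intro y hy
    exact ⟨y, hy, hσ y (hn y hy)⟩

lemma good_fix {m l : ℕ} {F : Set (Set (Fin m))} {k : Fin m} {G : Set (Fin m)}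
    {σ : Equiv.Perm (Fin m)} {g : ℕ → Set (Fin m)} {s : ℕ → Fin m} (hg0 : g 0 = G)
    (hk : k < s 0) (hg1 : ∀ i, i < l → g i ∈ F ∧ s i ∉ g i)
    (hg2 : ∀ i, i + 1 < l → g i ⊆ g (i + 1) ∧ s i ∈ g (i + 1) ∧ s i < s (i + 1))
    (hfix : ∀ i, i < l → σ (s i) = s i) : Good l (img σ F) k (σ '' G) := by
  refine ⟨fun i => σ '' g i, s, by simp [hg0], hk, ?_, ?_⟩
  · intro i hi
    refine ⟨⟨g i, (hg1 i hi).1, rfl⟩, ?_⟩
    rintro ⟨x, hx, hxs⟩
    have : x = s i := σ.injective (hxs.trans (hfix i hi).symm)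
    exact (hg1 i hi).2 (this ▸ hx)
  · intro i hi
    refine ⟨Set.image_mono (hg2 i hi).1, ?_, (hg2 i hi).2.2⟩
    exact ⟨s i, (hg2 i hi).2.1, hfix i (by omega)⟩

theorem pf_GI (h1 : T_GMN) (h2 : T_GUN) (h3 : T_CNL) : T_GI := by
  intro m l F j k K G σ hm hF hK hKj hσ hGF hGk
  have hl : 0 < l := by omega
  set C : Set (Fin m) := K ∩ {x | x ≤ j} with hC
  -- the case of large labels
  have big : ∀ k' : Fin m, j ≤ k' → ∀ G', Good l F k' G' → Good l (img σ F) k' (σ '' G') := by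
    rintro k' hk' G' ⟨g, s, hg0, hks, hg1, hg2⟩
    refine good_fix hg0 hks hg1 hg2 ?_
    intro i hi
    apply hσ
    rintro ⟨_, hle⟩
    have hle' : s i ≤ j := hle
    have h0 : s 0 ≤ s i := by
      rcases Nat.eq_zero_or_pos i with rfl | hp
      · exact le_rfl
      · exact (lt_chain (fun i hi => (hg2 i hi).2.2) 0 i hp hi).le
    exact absurd (lt_of_lt_of_le (lt_of_le_of_lt hk' hks) (h0.trans hle')) (lt_irrefl _)
  rcases le_or_gt j k with hjk | hkj
  · exact big k hjk G hGk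
  have hGk0 := hGk
  obtain ⟨g, s, hg0, hks, hg1, hg2⟩ := hGk
  rcases hF.cross G hGF K hK with hc | hc | hc | hc
  · have hGj : Good l F j G := h1 m l F j j G K hl hGF hc le_rfl hKj
    exact h1 m l (img σ F) k j (σ '' G) (σ '' G) hl ⟨G, hGF, rfl⟩ subset_rfl hkj.le
      (big j le_rfl G hGj)
  · refine good_fix hg0 hks hg1 hg2 ?_
    intro i hi
    apply hσ
    rintro ⟨hsK, _⟩
    exact (hg1 i hi).2 (sub_of_le (fun i hi => (hg2 i hi).1) 0 i (Nat.zero_le _) hi
      (by rw [hg0]; exact hc hsK))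
  · by_cases hall : ∀ i, i < l → Disjoint (g i) K ∨ K ⊆ g i
    · have him : ∀ i, i < l → σ '' g i = g i := by
        intro i hi
        rcases hall i hi with h | h
        · exact image_of_disj hσ (Set.disjoint_of_subset_right Set.inter_subset_left h)
        · exact image_of_sup hσ (Set.inter_subset_left.trans h)
      refine ⟨g, s, ?_, hks, ?_, hg2⟩
      · rw [← hg0, him 0 hl]
      · intro i hi
        exact ⟨⟨g i, (hg1 i hi).1, (him i hi).symm⟩, (hg1 i hi).2⟩
    · exfalso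
      classical
      push Not at hall
      obtain ⟨h, t, hh0, _, hh1, hh2⟩ := hKj
      have hex : ∃ p, p < l ∧ ¬ Disjoint (g p) K ∧ ¬ K ⊆ g p := by
        obtain ⟨p, hp, hp1, hp2⟩ := hall
        exact ⟨p, hp, hp1, hp2⟩
      obtain ⟨hp, hp1, hp2⟩ := Nat.find_spec hex
      have hmin : ∀ i, i < Nat.find hex → Disjoint (g i) K := by
        intro i hi
        have hn := Nat.find_min hex hi
        by_contra hd
        apply hn
        refine ⟨by omega, hd, ?_⟩
        intro hKi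
        exact hp2 (hKi.trans (sub_of_le (fun i hi => (hg2 i hi).1) i _ hi.le hp))
      have hcov : g (Nat.find hex) ∪ K = Set.univ := by
        rcases hF.cross _ (hg1 _ hp).1 K hK with hc' | hc' | hc' | hc'
        · exfalso
          obtain ⟨x, hx⟩ := hF.ne G hGF
          have hx1 : x ∈ g (Nat.find hex) :=
            sub_of_le (fun i hi => (hg2 i hi).1) 0 _ (Nat.zero_le _) hp (by rw [hg0]; exact hx)
          exact Set.disjoint_left.1 hc hx (hc' hx1)
        · exact absurd hc' hp2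
        · exact absurd hc' hp1
        · exact hc'
      have := h3 m l F g h s t (Nat.find hex) hF (by rw [hh0]; exact hK) hg1 hg2 hh1 hh2 hp
        (by rw [hh0]; exact hmin) (by rw [hh0]; exact hcov)
      omega
  · exact absurd hc (h2 m l F k j G K (by omega) hGk0 hKj)

end Pool.Agent.H33.WT
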