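import Pool.Agent.H38.WT.Targets

/-!
# Two good cuts do not cover
-/

set_option autoImplicit false

noncomputable section

namespace Pool.Agent.H33.WT

open Pool.Agent.H38.WT

lemma sub_of_le {m l : ℕ} {g : ℕ → Set (Fin m)} (hg : ∀ i, i + 1 < l → g i ⊆ g (i + 1)) :
    ∀ i j, i ≤ j → j < l → g i ⊆ g j := by
  intro i j hij
  induction j, hij using Nat.le_induction with
  | base => intro _; exact subset_rfl
  | succ j hij ih => intro hj; exact (ih (by omega)).trans (hg j hj)

lemma lt_chain {m l : ℕ} {s : ℕ → Fin m} (hs : ∀ i, i + 1 < l → s i < s (i + 1)) :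
    ∀ i j, i < j → j < l → s i < s j := by
  intro i j hij
  induction j with
  | zero => exact absurd hij (Nat.not_lt_zero _)
  | succ j ih =>
    intro hj
    rcases Nat.lt_succ_iff_lt_or_eq.1 hij with h | h
    · exact (ih h (by omega)).trans (hs j hj)
    · subst h; exact hs i hj

lemma two_mul_le {m l : ℕ} {s t : ℕ → Fin m} (hs : ∀ i j, i < j → j < l → s i < s j)
    (ht : ∀ i j, i < j → j < l → t i < t j) (hst : ∀ i j, i < l → j < l → s i ≠ t j) :
    2 * l ≤ m := by
  have key : Function.Injective
      (Sum.elim (fun i : Fin l => s i) (fun i : Fin l => t i) : Fin l ⊕ Fin l → Fin m) := by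
    rintro (a | a) (b | b) hab
    · simp only [Sum.elim_inl] at hab
      rcases lt_trichotomy a.1 b.1 with h | h | h
      · exact absurd hab (hs _ _ h b.2).ne
      · rw [Fin.ext h]
      · exact absurd hab.symm (hs _ _ h a.2).ne
    · exact absurd hab (hst _ _ a.2 b.2)
    · exact absurd hab.symm (hst _ _ b.2 a.2)
    · simp only [Sum.elim_inr] at hab
      rcases lt_trichotomy a.1 b.1 with h | h | h
      · exact absurd hab (ht _ _ h b.2).ne
      · rw [Fin.ext h]
      · exact absurd hab.symm (ht _ _ h a.2).ne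
  have := Fintype.card_le_of_injective _ key
  simp only [Fintype.card_sum, Fintype.card_fin] at this
  omega

theorem pf_GUN : T_GUN := by
  intro m l F k k' G H hm hG hH hU
  obtain ⟨g, s, hg0, _, hg1, hg2⟩ := hG
  obtain ⟨h, t, hh0, _, hh1, hh2⟩ := hH
  have hsG : ∀ i, i < l → s i ∉ G := by
    intro i hi hmem
    exact (hg1 i hi).2 (sub_of_le (fun i hi => (hg2 i hi).1) 0 i (Nat.zero_le _) hi
      (by rw [hg0]; exact hmem))
  have htH : ∀ i, i < l → t i ∉ H := by
    intro i hi hmem
    exact (hh1 i hi).2 (sub_of_le (fun i hi => (hh2 i hi).1) 0 i (Nat.zero_le _) hi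
      (by rw [hh0]; exact hmem))
  have := two_mul_le (lt_chain (fun i hi => (hg2 i hi).2.2))
    (lt_chain (fun i hi => (hh2 i hi).2.2)) (fun i j hi hj hij => by
      have h1 : s i ∈ G ∪ H := by rw [hU]; trivial
      rcases h1 with h1 | h1
      · exact hsG i hi h1
      · exact htH j hj (hij ▸ h1))
  omega

end Pool.Agent.H33.WT
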