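import Pool.Agent.H38.WT.Targets

/-!
# Displays in a graph with one more vertex
-/

set_option autoImplicit false

noncomputable section

namespace Pool.Agent.H33.WT

open Pool.Agent.H38.WT

lemma exists_succAbove {n : ℕ} (r : Fin n → Fin (n + 1)) (hr : StrictMono r) :
    ∃ x : Fin (n + 1), r = x.succAbove := by
  classical
  have hns : ¬ Function.Surjective r := by
    intro h
    have := Fintype.card_le_of_surjective r h
    simp at this
  have hx : ∃ x, ∀ a, r a ≠ x := by
    by_contra hc
    push Not at hc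
    exact hns hc
  obtain ⟨x, hx⟩ := hx
  refine ⟨x, ?_⟩
  rw [← StrictMono.range_inj hr (Fin.strictMono_succAbove x), Fin.range_succAbove]
  have h1 : Finset.univ.image r = ({x}ᶜ : Finset (Fin (n + 1))) := by
    apply Finset.eq_of_subset_of_card_le
    · intro y hy
      rw [Finset.mem_image] at hy
      obtain ⟨a, _, rfl⟩ := hy
      simpa using hx a
    · rw [Finset.card_image_of_injective _ hr.injective, Finset.card_compl]
      simp
  ext y
  have := Finset.ext_iff.1 h1 y
  simp only [Finset.mem_image, Finset.mem_univ, true_and, Finset.mem_compl,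
    Finset.mem_singleton] at this
  simpa using this

/-- The map which sends `x` to `i` and is the inverse of `x.succAbove` elsewhere. -/
def ff {n : ℕ} (x : Fin (n + 1)) (i : Fin n) : Fin (n + 1) → Fin n :=
  Fin.insertNth (α := fun _ => Fin n) x i (fun a => a)

lemma ff_x {n : ℕ} (x : Fin (n + 1)) (i : Fin n) : ff x i x = i := by
  unfold ff; simp

lemma ff_s {n : ℕ} (x : Fin (n + 1)) (i a : Fin n) : ff x i (x.succAbove a) = a := by
  unfold ff; simp

lemma ff_iff {n : ℕ} (x : Fin (n + 1)) (i a : Fin n) (u : Fin (n + 1)) :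
    ff x i u = a ↔ u = x.succAbove a ∨ (u = x ∧ a = i) := by
  constructor
  · intro h
    by_cases hu : u = x
    · subst hu
      rw [ff_x] at h
      exact Or.inr ⟨rfl, h.symm⟩
    · obtain ⟨b, rfl⟩ := Fin.exists_succAbove_eq hu
      rw [ff_s] at h
      exact Or.inl (by rw [h])
  · rintro (rfl | ⟨rfl, rfl⟩)
    · exact ff_s _ _ _
    · exact ff_x _ _

lemma disp_iff {n : ℕ} (T : SimpleGraph (Fin n)) (U : SimpleGraph (Fin (n + 1)))
    (x : Fin (n + 1)) (i : Fin n) : IsDisplay T U (ff x i) x.succAbove ↔ Disp1 T U x i := by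
  have hadj : ∀ a b : Fin n, a ≠ b →
      ((∃ u v, ff x i u = a ∧ ff x i v = b ∧ U.Adj u v) ↔
        (U.Adj (x.succAbove a) (x.succAbove b) ∨ (a = i ∧ U.Adj x (x.succAbove b)) ∨
          (b = i ∧ U.Adj x (x.succAbove a)))) := by
    intro a b hab
    constructor
    · rintro ⟨u, v, hu, hv, huv⟩
      rw [ff_iff] at hu hv
      rcases hu with rfl | ⟨rfl, rfl⟩ <;> rcases hv with rfl | ⟨rfl, rfl⟩
      · exact Or.inl huv
      · exact Or.inr (Or.inr ⟨rfl, huv.symm⟩)
      · exact Or.inr (Or.inl ⟨rfl, huv⟩)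
      · exact absurd rfl hab
    · rintro (h | ⟨rfl, h⟩ | ⟨rfl, h⟩)
      · exact ⟨_, _, ff_s _ _ _, ff_s _ _ _, h⟩
      · exact ⟨x, _, ff_x _ _, ff_s _ _ _, h⟩
      · exact ⟨_, x, ff_s _ _ _, ff_x _ _, h.symm⟩
  constructor
  · intro h
    refine ⟨?_, fun a b hab => (h.adj a b hab).trans (hadj a b hab)⟩
    have hc := (h.conn i).preconnected
    have hxs : x.succAbove i ≠ x := Fin.succAbove_ne x i
    have hr := hc ⟨x, (ff_iff x i i x).2 (Or.inr ⟨rfl, rfl⟩)⟩
      ⟨x.succAbove i, (ff_iff x i i _).2 (Or.inl rfl)⟩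
    obtain ⟨w⟩ := hr
    obtain ⟨v, hw, q, _⟩ := w.exists_eq_cons_of_ne (by
      intro he
      exact hxs (congrArg Subtype.val he).symm)
    have hv' : ff x i v.1 = i := v.2
    rw [ff_iff] at hv'
    have hadj' : U.Adj x v.1 := hw
    rcases hv' with hv' | ⟨hv', _⟩
    · rw [hv'] at hadj'; exact hadj'
    · rw [hv'] at hadj'; exact absurd hadj' (U.irrefl)
  · rintro ⟨h1, h2⟩
    refine ⟨Fin.strictMono_succAbove x, fun a => ff_s x i a, ?_,
      fun a b hab => (h2 a b hab).trans (hadj a b hab).symm⟩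
    intro a
    by_cases hai : a = i
    · subst hai
      have hset : {v | ff x a v = a} = {x, x.succAbove a} := by
        ext v
        simp only [Set.mem_ofPred_eq, ff_iff, Set.mem_insert_iff, Set.mem_singleton_iff]
        tauto
      rw [hset]
      exact SimpleGraph.induce_pair_connected_of_adj h1
    · have hset : {v | ff x i v = a} = {x.succAbove a} := by
        ext v
        simp only [Set.mem_ofPred_eq, ff_iff, Set.mem_singleton_iff]
        tauto
      rw [hset]
      have hss : Subsingleton (({x.succAbove a} : Set (Fin (n + 1)))) := by infer_instance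
      exact { preconnected := fun u v => by rw [Subsingleton.elim u v]
              nonempty := ⟨⟨x.succAbove a, rfl⟩⟩ }

theorem pf_SA : T_SA := by
  intro n T U
  unfold cD
  symm
  apply Nat.card_eq_of_bijective
    (fun p : {p : Fin (n + 1) × Fin n // Disp1 T U p.1 p.2} =>
      (⟨(ff p.1.1 p.1.2, p.1.1.succAbove), (disp_iff T U _ _).2 p.2⟩ :
        {p : (Fin (n + 1) → Fin n) × (Fin n → Fin (n + 1)) // IsDisplay T U p.1 p.2}))
  constructor
  · rintro ⟨⟨x, i⟩, h⟩ ⟨⟨x', i'⟩, h'⟩ he
    simp only [Subtype.mk.injEq, Prod.mk.injEq] at he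
    obtain ⟨h1, h2⟩ := he
    have hx : x = x' := Fin.succAbove_left_injective h2
    subst hx
    have hi : i = i' := by
      have := congrFun h1 x
      rwa [ff_x, ff_x] at this
    subst hi
    rfl
  · rintro ⟨⟨f, r⟩, h⟩
    obtain ⟨x, hx⟩ := exists_succAbove r h.mono
    have hsect : ∀ i, f (r i) = i := h.sect
    have hx' : r = x.succAbove := hx
    subst hx'
    have hf : f = ff x (f x) := by
      funext u
      by_cases hu : u = x
      · subst hu; rw [ff_x]
      · obtain ⟨b, rfl⟩ := Fin.exists_succAbove_eq hu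
        rw [ff_s, hsect]
    have hd : Disp1 T U x (f x) := by
      rw [← disp_iff, ← hf]
      exact h
    refine ⟨⟨(x, f x), hd⟩, ?_⟩
    apply Subtype.ext
    simp only [Prod.mk.injEq, and_true]
    exact hf.symm

end Pool.Agent.H33.WT
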